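import Pool.Agent.helper23.CU.SpecU

open Finset Filter Topology MeasureTheory

namespace CU

section VBaux
variable {d : ℕ}

theorem VB_tE (Λ : Finset (ZSite d)) (e : ZSite d × Fin d) (he : e ∉ tE Λ) :
    e.1 ∉ Λ ∧ e.1 + zev e.2 ∉ Λ := by
  unfold tE at he
  rw [mem_union, not_or] at he
  refine ⟨fun h => he.1 (by rw [mem_product]; exact ⟨h, mem_univ _⟩), fun h => he.2 ?_⟩
  rw [mem_image]
  refine ⟨(e.1 + zev e.2, e.2), by rw [mem_product]; exact ⟨h, mem_univ _⟩, ?_⟩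
  simp

theorem VB_mono {Λ Λ' : Finset (ZSite d)} (h : Λ ⊆ Λ') : tE Λ ⊆ tE Λ' := by
  unfold tE
  exact union_subset_union (product_subset_product_left h)
    (image_subset_image (product_subset_product_left h))

theorem VB_key (β : ℝ) {Λ Λ' : Finset (ZSite d)} (h : Λ ⊆ Λ') (σ τ : ZConf d)
    (hst : ∀ x, x ∉ Λ → σ x = τ x) : zwt β 0 Λ' σ * zwt β 0 Λ τ = zwt β 0 Λ' τ * zwt β 0 Λ σ := by
  unfold zwt
  rw [← Real.exp_add, ← Real.exp_add]
  congr 1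
  have h1 : ∑ e ∈ tE Λ, (sg (σ e.1) * sg (σ (e.1 + zev e.2)) - sg (τ e.1) * sg (τ (e.1 + zev e.2))) =
      ∑ e ∈ tE Λ', (sg (σ e.1) * sg (σ (e.1 + zev e.2)) - sg (τ e.1) * sg (τ (e.1 + zev e.2))) := by
    refine Finset.sum_subset (VB_mono h) fun e _ he => ?_
    obtain ⟨h2, h3⟩ := VB_tE Λ e he
    rw [hst _ h2, hst _ h3, sub_self]
  rw [Finset.sum_sub_distrib, Finset.sum_sub_distrib] at h1
  linear_combination (-β) * h1

/-- change `η'` on `Λ` to `η` -/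
def VB_T (Λ Λ' : Finset (ZSite d)) (η' : {x // x ∈ Λ'} → Bool) (η : {x // x ∈ Λ} → Bool) :
    {x // x ∈ Λ'} → Bool := fun x => if hx : (x : ZSite d) ∈ Λ then η ⟨x, hx⟩ else η' x

theorem VB_glue {Λ Λ' : Finset (ZSite d)} (h : Λ ⊆ Λ') (η' : {x // x ∈ Λ'} → Bool)
    (η : {x // x ∈ Λ} → Bool) (ω : ZConf d) :
    glue Λ η (glue Λ' η' ω) = glue Λ' (VB_T Λ Λ' η' η) ω := by
  funext x
  unfold glue VB_T
  by_cases h1 : x ∈ Λ
  · simp [h1, h h1]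
  · by_cases h2 : x ∈ Λ'
    · simp [h1, h2]
    · simp [h1, h2]

theorem VB_off {Λ Λ' : Finset (ZSite d)} (η' : {x // x ∈ Λ'} → Bool)
    (η : {x // x ∈ Λ} → Bool) (ω : ZConf d) (x : ZSite d) (hx : x ∉ Λ) :
    glue Λ' (VB_T Λ Λ' η' η) ω x = glue Λ' η' ω x := by
  unfold glue VB_T
  by_cases h2 : x ∈ Λ'
  · simp [hx, h2]
  · simp [h2]

theorem VB_TT {Λ Λ' : Finset (ZSite d)} (η' : {x // x ∈ Λ'} → Bool)
    (η η2 : {x // x ∈ Λ} → Bool) : VB_T Λ Λ' (VB_T Λ Λ' η' η) η2 = VB_T Λ Λ' η' η2 := by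
  funext x
  unfold VB_T
  by_cases h1 : (x : ZSite d) ∈ Λ
  · simp [h1]
  · simp [h1]

end VBaux

theorem VB : VB_stmt := by
  intro d β Λ Λ' h f ω
  let X := {x // x ∈ Λ'} → Bool
  let Y := {x // x ∈ Λ} → Bool
  let w' : X → ℝ := fun η' => zwt β 0 Λ' (glue Λ' η' ω)
  let w : X → ℝ := fun η' => zwt β 0 Λ (glue Λ' η' ω)
  let F : X → ℝ := fun η' => f (glue Λ' η' ω)
  let R : X → Y := fun η' x => η' ⟨x, h x.2⟩
  let Zt : X → ℝ := fun η' => ∑ η : Y, w (VB_T Λ Λ' η' η)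
  have hZpos : ∀ η', 0 < Zt η' := by
    intro η'
    refine Finset.sum_pos (fun η _ => Real.exp_pos _) ?_
    exact univ_nonempty
  have hinv : Function.Involutive (fun p : X × Y => (VB_T Λ Λ' p.1 p.2, R p.1)) := by
    rintro ⟨η', η⟩
    simp only
    refine Prod.ext ?_ ?_
    · funext x
      simp only [VB_TT]
      unfold VB_T
      by_cases h1 : (x : ZSite d) ∈ Λ
      · simp [h1, R]
      · simp [h1]
    · funext x
      show VB_T Λ Λ' η' η ⟨x, h x.2⟩ = η x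
      unfold VB_T
      simp [x.2]
  have key : ∀ (η' : X) (η : Y), w' η' * w (VB_T Λ Λ' η' η) = w' (VB_T Λ Λ' η' η) * w η' := by
    intro η' η
    exact VB_key β h _ _ (fun x hx => (VB_off η' η ω x hx).symm)
  have hnum : ∑ η' : X, w' η' * ((∑ η : Y, w (VB_T Λ Λ' η' η) * F (VB_T Λ Λ' η' η)) / Zt η') =
      ∑ η' : X, w' η' * F η' := by
    have e1 : ∀ η' : X, w' η' * ((∑ η : Y, w (VB_T Λ Λ' η' η) * F (VB_T Λ Λ' η' η)) / Zt η') =
        ∑ η : Y, w' (VB_T Λ Λ' η' η) * w η' * F (VB_T Λ Λ' η' η) / Zt (VB_T Λ Λ' η' η) := by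
      intro η'
      rw [Finset.sum_div, Finset.mul_sum]
      refine Finset.sum_congr rfl fun η _ => ?_
      have e2 : Zt (VB_T Λ Λ' η' η) = Zt η' := by
        simp only [Zt]
        refine Finset.sum_congr rfl fun η2 _ => ?_
        rw [VB_TT]
      rw [e2, ← key]
      ring
    rw [Finset.sum_congr rfl fun η' _ => e1 η']
    have e3 : ∑ η' : X, ∑ η : Y, w' (VB_T Λ Λ' η' η) * w η' * F (VB_T Λ Λ' η' η) /
        Zt (VB_T Λ Λ' η' η) = ∑ p : X × Y, w' (VB_T Λ Λ' p.1 p.2) * w p.1 * F (VB_T Λ Λ' p.1 p.2) /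
        Zt (VB_T Λ Λ' p.1 p.2) := (Fintype.sum_prod_type' _).symm
    have e4 : ∑ p : X × Y, w' (VB_T Λ Λ' p.1 p.2) * w p.1 * F (VB_T Λ Λ' p.1 p.2) /
        Zt (VB_T Λ Λ' p.1 p.2) = ∑ p : X × Y, w' p.1 * w (VB_T Λ Λ' p.1 p.2) * F p.1 / Zt p.1 := by
      rw [← Equiv.sum_comp (hinv.toPerm _)]
      refine Finset.sum_congr rfl fun p _ => ?_
      have e5 := hinv p
      have e6 := congrArg Prod.fst e5
      simp only at e6
      show w' (VB_T Λ Λ' (VB_T Λ Λ' p.1 p.2) (R p.1)) * w (VB_T Λ Λ' p.1 p.2) *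
        F (VB_T Λ Λ' (VB_T Λ Λ' p.1 p.2) (R p.1)) / Zt (VB_T Λ Λ' (VB_T Λ Λ' p.1 p.2) (R p.1)) = _
      rw [e6]
    have e7 : ∑ p : X × Y, w' p.1 * w (VB_T Λ Λ' p.1 p.2) * F p.1 / Zt p.1 =
        ∑ η' : X, ∑ η : Y, w' η' * w (VB_T Λ Λ' η' η) * F η' / Zt η' :=
      Fintype.sum_prod_type _
    rw [e3, e4, e7]
    refine Finset.sum_congr rfl fun η' _ => ?_
    have e8 : ∀ η : Y, w' η' * w (VB_T Λ Λ' η' η) * F η' / Zt η' =
        (w' η' * F η' / Zt η') * w (VB_T Λ Λ' η' η) := fun η => by ring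
    rw [Finset.sum_congr rfl fun η _ => e8 η, ← Finset.mul_sum]
    exact div_mul_cancel₀ _ (hZpos η').ne'
  unfold gam
  simp only [VB_glue h]
  exact congrArg (fun t => t / ∑ η' : X, w' η') hnum

end CU
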